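import Mathlib

set_option autoImplicit false

open Finset

namespace Pool.Agent.Q220.Kneser

section graph

variable {V : Type*} [Fintype V] [DecidableEq V]

/-- A pebbling move: two pebbles are taken off `u` and one is put on a neighbour `v` of `u`. -/
def Move (G : SimpleGraph V) (C C' : V → ℕ) : Prop :=
  ∃ u v, G.Adj u v ∧ 2 ≤ C u ∧
    C' = fun x => (if x = u then C x - 2 else C x) + (if x = v then 1 else 0)

/-- Some sequence of pebbling moves puts at least one pebble on `r`. -/
def Reaches (G : SimpleGraph V) (C : V → ℕ) (r : V) : Prop :=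
  ∃ C', Relation.ReflTransGen (Move G) C C' ∧ 1 ≤ C' r

/-- `π(G, r)`: the least `k` such that `r` can be reached from every distribution of size `k`. -/
noncomputable def rootedPebblingNumber (G : SimpleGraph V) (r : V) : ℕ :=
  sInf {k | ∀ C : V → ℕ, ∑ v, C v = k → Reaches G C r}

/-- `π(G) = max_r π(G, r)`. -/
noncomputable def pebblingNumber (G : SimpleGraph V) : ℕ :=
  univ.sup fun r => rootedPebblingNumber G r

/-- A weighted strategy for the root `r`. -/
def Strategy (G : SimpleGraph V) (r : V) (w : V → ℕ) : Prop :=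
  ∀ u, 0 < w u → ∃ q, G.Adj u q ∧ (q = r ∨ 2 * w u ≤ w q)

theorem reach_of_weight (G : SimpleGraph V) (r : V) (w : V → ℕ) (hw : Strategy G r w) :
    ∀ (n : ℕ) (C : V → ℕ), ∑ v, C v = n → ∑ v, w v < ∑ v, w v * C v → Reaches G C r := by
  intro n
  induction n using Nat.strong_induction_on with
  | _ n ih =>
    intro C hC hlt
    obtain ⟨u, hu2, hwu⟩ : ∃ u, 2 ≤ C u ∧ 0 < w u := by
      by_contra hcon
      push Not at hcon
      have : ∑ v, w v * C v ≤ ∑ v, w v := by
        refine Finset.sum_le_sum fun v _ => ?_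
        by_cases hv : 2 ≤ C v
        · have := hcon v hv
          have h0 : w v = 0 := by omega
          simp [h0]
        · have h1 : C v ≤ 1 := by omega
          calc w v * C v ≤ w v * 1 := Nat.mul_le_mul_left _ h1
            _ = w v := mul_one _
      omega
    obtain ⟨q, hadj, hq⟩ := hw u hwu
    set C' : V → ℕ := fun x => (if x = u then C x - 2 else C x) + (if x = q then 1 else 0) with hC'
    have hmove : Move G C C' := ⟨u, q, hadj, hu2, rfl⟩
    rcases hq with rfl | hq
    · exact ⟨C', Relation.ReflTransGen.single hmove, by simp [hC']⟩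
    have hid : ∀ x, C' x + (if x = u then 2 else 0) = C x + (if x = q then 1 else 0) := by
      intro x
      simp only [hC']
      by_cases hx : x = u
      · subst hx
        simp only [if_true]
        omega
      · simp only [hx, if_false]
        omega
    have hsize : ∑ v, C' v + 2 = ∑ v, C v + 1 := by
      have h1 : ∑ v, C' v + ∑ v, (if v = u then 2 else 0) =
          ∑ v, C v + ∑ v, (if v = q then 1 else 0) := by
        rw [← Finset.sum_add_distrib, ← Finset.sum_add_distrib]
        exact Finset.sum_congr rfl fun v _ => hid v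
      rw [Finset.sum_ite_eq', Finset.sum_ite_eq', if_pos (mem_univ _), if_pos (mem_univ _)] at h1
      exact h1
    have hwsum : ∑ v, w v * C' v + 2 * w u = ∑ v, w v * C v + w q := by
      have h1 : ∑ v, w v * C' v + ∑ v, (if v = u then w v * 2 else 0) =
          ∑ v, w v * C v + ∑ v, (if v = q then w v * 1 else 0) := by
        rw [← Finset.sum_add_distrib, ← Finset.sum_add_distrib]
        refine Finset.sum_congr rfl fun v _ => ?_
        have h2 := congrArg (fun x => w v * x) (hid v)
        simp only [mul_add, mul_ite, mul_zero] at h2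
        exact h2
      rw [Finset.sum_ite_eq', Finset.sum_ite_eq', if_pos (mem_univ _), if_pos (mem_univ _)] at h1
      rw [mul_comm 2 (w u)]
      omega
    obtain ⟨D, hD1, hD2⟩ := ih (∑ v, C' v) (by omega) C' rfl (by omega)
    exact ⟨D, Relation.ReflTransGen.head hmove hD1, hD2⟩

theorem reach_of_family (G : SimpleGraph V) (r : V) {ι : Type*} (s : Finset ι) (w : ι → V → ℕ)
    (hw : ∀ i ∈ s, Strategy G r (w i)) (hr : ∀ i ∈ s, w i r = 0) (M : ℕ) (hM : 0 < M)
    (hsum : ∀ u, u ≠ r → ∑ i ∈ s, w i u = M) (C : V → ℕ) (hC : Fintype.card V ≤ ∑ v, C v) :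
    Reaches G C r := by
  by_contra hn
  have hCr : C r = 0 := by
    by_contra h
    exact hn ⟨C, Relation.ReflTransGen.refl, Nat.one_le_iff_ne_zero.2 h⟩
  have h1 : ∀ i ∈ s, ∑ v, w i v * C v ≤ ∑ v, w i v := by
    intro i hi
    by_contra hlt
    exact hn (reach_of_weight G r (w i) (hw i hi) _ C rfl (not_le.1 hlt))
  have h2 := Finset.sum_le_sum h1
  rw [Finset.sum_comm, Finset.sum_comm (s := s)] at h2
  have h3 : ∀ v, ∑ i ∈ s, w i v * C v = M * C v := by
    intro v
    rw [← Finset.sum_mul]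
    by_cases hv : v = r
    · subst hv; rw [hCr]; simp
    · rw [hsum v hv]
  have h4 : ∀ v, ∑ i ∈ s, w i v = if v = r then 0 else M := by
    intro v
    by_cases hv : v = r
    · subst hv
      rw [if_pos rfl]
      exact Finset.sum_eq_zero fun i hi => hr i hi
    · rw [if_neg hv, hsum v hv]
  simp only [h3, h4] at h2
  rw [← Finset.mul_sum] at h2
  have h5 : ∑ v, (if v = r then 0 else M) + M = M * Fintype.card V := by
    have h6 : ∑ v, ((if v = r then 0 else M) + (if v = r then M else 0)) = ∑ _v : V, M :=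
      Finset.sum_congr rfl fun v _ => by split_ifs <;> simp
    rw [Finset.sum_add_distrib] at h6
    simp only [Finset.sum_ite_eq', Finset.mem_univ, if_true, Finset.sum_const, Finset.card_univ,
      smul_eq_mul] at h6
    rw [mul_comm M]
    exact h6
  have h7 := Nat.mul_le_mul_left M hC
  omega

/-- Distributions with at most one pebble everywhere and none on `r` do not reach `r`. -/
theorem not_reaches (G : SimpleGraph V) (r : V) (C : V → ℕ) (h1 : ∀ v, C v ≤ 1) (hr : C r = 0) :
    ¬ Reaches G C r := by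
  rintro ⟨C', hC', hr'⟩
  rcases Relation.ReflTransGen.cases_head hC' with h | ⟨D, ⟨u, v, -, h2, -⟩, -⟩
  · subst h; omega
  · have := h1 u; omega

theorem rooted_eq_card (G : SimpleGraph V) (r : V)
    (h : ∀ C : V → ℕ, Fintype.card V ≤ ∑ v, C v → Reaches G C r) :
    rootedPebblingNumber G r = Fintype.card V := by
  apply le_antisymm
  · exact Nat.sInf_le fun C hC => h C hC.ge
  · refine le_csInf ⟨_, fun C hC => h C hC.ge⟩ ?_
    intro k hk
    by_contra hlt
    push Not at hlt
    have hcard : (univ.erase r : Finset V).card = Fintype.card V - 1 := by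
      rw [Finset.card_erase_of_mem (mem_univ r), Finset.card_univ]
    obtain ⟨T, hT1, hT2⟩ := Finset.exists_subset_card_eq (s := univ.erase r) (n := k) (by omega)
    have hsz : ∑ v, (if v ∈ T then 1 else 0) = k := by
      rw [Finset.sum_ite_mem, Finset.univ_inter, Finset.sum_const, smul_eq_mul, mul_one, hT2]
    refine not_reaches G r (fun v => if v ∈ T then 1 else 0) (fun v => ?_) ?_ (hk _ hsz)
    · show (if v ∈ T then 1 else 0) ≤ 1
      split_ifs <;> simp
    · have : r ∉ T := fun hrT => (Finset.mem_erase.1 (hT1 hrT)).1 rfl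
      simp [this]

theorem pebbling_eq_card [Nonempty V] (G : SimpleGraph V)
    (h : ∀ r, ∀ C : V → ℕ, Fintype.card V ≤ ∑ v, C v → Reaches G C r) :
    pebblingNumber G = Fintype.card V := by
  unfold pebblingNumber
  simp only [fun r => rooted_eq_card G r (h r)]
  exact Finset.sup_const Finset.univ_nonempty _

end graph

/-- The Kneser graph `K(m, t)`. -/
def kneser (m t : ℕ) : SimpleGraph {s : Finset (Fin m) // s.card = t} where
  Adj a b := a ≠ b ∧ Disjoint a.1 b.1
  symm := ⟨fun _ _ h => ⟨h.1.symm, h.2.symm⟩⟩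
  loopless := ⟨fun _ h => h.1 rfl⟩

lemma count {α : Type*} [DecidableEq α] (S T : Finset α) (hT : T ⊆ S) (t j : ℕ) (hj : j ≤ t) :
    ((powersetCard t S).filter fun v => (T ∩ v).card = j).card =
      T.card.choose j * (S \ T).card.choose (t - j) := by
  rw [← card_powersetCard, ← card_powersetCard, ← card_product]
  apply card_nbij' (fun v => (T ∩ v, v \ T)) (fun p => p.1 ∪ p.2)
  · intro v hv
    simp only [coe_filter, mem_powersetCard, Set.mem_ofPred_eq] at hv
    obtain ⟨⟨hv1, hv2⟩, hv3⟩ := hv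
    simp only [coe_product, Set.mem_prod, mem_coe, mem_powersetCard]
    refine ⟨⟨inter_subset_left, hv3⟩, ?_, ?_⟩
    · exact sdiff_subset_sdiff hv1 le_rfl
    · have h := card_sdiff_add_card_inter v T
      rw [inter_comm] at h
      omega
  · rintro ⟨x, y⟩ hxy
    simp only [coe_product, Set.mem_prod, mem_coe, mem_powersetCard] at hxy
    obtain ⟨⟨hx1, hx2⟩, hy1, hy2⟩ := hxy
    have hd : Disjoint x y := by
      rw [Finset.disjoint_left]
      intro a ha hb
      exact (mem_sdiff.1 (hy1 hb)).2 (hx1 ha)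
    simp only [coe_filter, mem_powersetCard, Set.mem_ofPred_eq]
    refine ⟨⟨union_subset (hx1.trans hT) (hy1.trans sdiff_subset), ?_⟩, ?_⟩
    · rw [card_union_of_disjoint hd]; omega
    · have : T ∩ (x ∪ y) = x := by
        ext a
        simp only [mem_inter, mem_union]
        constructor
        · rintro ⟨h1, h2 | h2⟩
          · exact h2
          · exact absurd h1 (mem_sdiff.1 (hy1 h2)).2
        · intro h; exact ⟨hx1 h, Or.inl h⟩
      rw [this, hx2]
  · intro v _
    ext a
    simp only [mem_union, mem_inter, mem_sdiff]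
    tauto
  · rintro ⟨x, y⟩ hxy
    simp only [coe_product, Set.mem_prod, mem_coe, mem_powersetCard] at hxy
    obtain ⟨⟨hx1, hx2⟩, hy1, hy2⟩ := hxy
    ext a
    · simp only [mem_inter, mem_union]
      constructor
      · rintro ⟨h1, h2 | h2⟩
        · exact h2
        · exact absurd h1 (mem_sdiff.1 (hy1 h2)).2
      · intro h; exact ⟨hx1 h, Or.inl h⟩
    · simp only [mem_sdiff, mem_union]
      constructor
      · rintro ⟨h1 | h1, h2⟩
        · exact absurd (hx1 h1) h2
        · exact h1
      · intro h; exact ⟨Or.inr h, (mem_sdiff.1 (hy1 h)).2⟩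

/-- The numerical certificate. -/
def Cert (m t : ℕ) (W : ℕ → ℕ → ℕ) (P : ℕ → ℕ → ℕ × ℕ) (M : ℕ) : Prop :=
  0 < t ∧ 2 * t ≤ m ∧ 0 < M ∧ W t 0 = 0 ∧
  (∀ i < t + 1, 0 < i → ∀ j < t + 1, i + j ≤ t → t ≤ i + j + (m - 2 * t) → 0 < W i j →
    2 * W i j ≤ W (P i j).1 (P i j).2 ∧ (P i j).1 + i ≤ t ∧ (P i j).2 + j ≤ t ∧
      (P i j).1 + (P i j).2 ≤ t ∧
      (t - (P i j).1 - (P i j).2) + (t - i - j) ≤ m - 2 * t) ∧
  ∀ i < t, ∑ j ∈ range (t + 1), (t - i).choose j * (m - 2 * t + i).choose (t - j) * W i j = M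

lemma list_sum_range (f : ℕ → ℕ) (n : ℕ) : ((List.range n).map f).sum = ∑ j ∈ range n, f j := by
  induction n with
  | zero => simp
  | succ n ih => rw [List.range_succ, List.map_append, List.sum_append, ih, Finset.sum_range_succ]; simp

/-- Boolean form of the certificate. -/
def certB (m t : ℕ) (W : ℕ → ℕ → ℕ) (P : ℕ → ℕ → ℕ × ℕ) (M : ℕ) : Bool :=
  decide (0 < t) && decide (2 * t ≤ m) && decide (0 < M) && decide (W t 0 = 0) &&
  ((List.range (t + 1)).all fun i => (List.range (t + 1)).all fun j =>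
    decide (i = 0) || decide (t < i + j) || decide (i + j + (m - 2 * t) < t) ||
    decide (W i j = 0) ||
    (decide (2 * W i j ≤ W (P i j).1 (P i j).2) && decide ((P i j).1 + i ≤ t) &&
      decide ((P i j).2 + j ≤ t) && decide ((P i j).1 + (P i j).2 ≤ t) &&
      decide ((t - (P i j).1 - (P i j).2) + (t - i - j) ≤ m - 2 * t))) &&
  ((List.range t).all fun i =>
    decide (((List.range (t + 1)).map fun j =>
      (t - i).choose j * (m - 2 * t + i).choose (t - j) * W i j).sum = M))

theorem cert_of_certB {m t : ℕ} {W : ℕ → ℕ → ℕ} {P : ℕ → ℕ → ℕ × ℕ} {M : ℕ}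
    (h : certB m t W P M = true) : Cert m t W P M := by
  unfold certB at h
  simp only [Bool.and_eq_true, Bool.or_eq_true, decide_eq_true_eq, List.all_eq_true,
    List.mem_range] at h
  obtain ⟨⟨⟨⟨⟨h1, h2⟩, h3⟩, h4⟩, h5⟩, h6⟩ := h
  refine ⟨h1, h2, h3, h4, ?_, ?_⟩
  · intro i hi hi0 j hj hij1 hij2 hW
    rcases h5 i hi j hj with ((((h | h) | h) | h) | h)
    · omega
    · omega
    · omega
    · omega
    · obtain ⟨⟨⟨⟨a1, a2⟩, a3⟩, a4⟩, a5⟩ := h
      exact ⟨a1, a2, a3, a4, a5⟩
  · intro i hi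
    rw [← h6 i hi]
    rw [list_sum_range]

theorem strategy_of_cert {m t : ℕ} {W : ℕ → ℕ → ℕ} {P : ℕ → ℕ → ℕ × ℕ} {M : ℕ}
    (h : Cert m t W P M) (A : {s : Finset (Fin m) // s.card = t}) (v : Finset (Fin m))
    (hv : v ∈ powersetCard t (A.1)ᶜ) :
    Strategy (kneser m t) A (fun u => W (u.1 ∩ A.1).card (u.1 ∩ v).card) := by
  obtain ⟨ht, hm, -, hroot, hpar, -⟩ := h
  obtain ⟨hv1, hv2⟩ := mem_powersetCard.1 hv
  have hdAv : Disjoint A.1 v := by
    rw [Finset.disjoint_left]
    intro a ha hb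
    exact (mem_compl.1 (hv1 hb)) ha
  intro u hu
  simp only at hu
  set i := (u.1 ∩ A.1).card with hi
  set j := (u.1 ∩ v).card with hj
  have hcu := u.2
  have hcA := A.2
  set R : Finset (Fin m) := (A.1 ∪ v)ᶜ with hR
  have hRcard : R.card = m - 2 * t := by
    rw [hR, card_compl, card_union_of_disjoint hdAv, hcA, hv2, Fintype.card_fin]
    omega
  have hsplit : (u.1 ∩ R).card + (i + j) = t := by
    have h1 : u.1 = (u.1 ∩ R) ∪ ((u.1 ∩ A.1) ∪ (u.1 ∩ v)) := by
      ext x
      simp only [hR, mem_union, mem_inter, mem_compl]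
      tauto
    have h2 : Disjoint (u.1 ∩ R) ((u.1 ∩ A.1) ∪ (u.1 ∩ v)) := by
      rw [Finset.disjoint_left]
      intro x
      simp only [hR, mem_union, mem_inter, mem_compl]
      tauto
    have h3 : Disjoint (u.1 ∩ A.1) (u.1 ∩ v) :=
      hdAv.mono inter_subset_right inter_subset_right
    have h4 : u.1.card = (u.1 ∩ R).card + ((u.1 ∩ A.1).card + (u.1 ∩ v).card) := by
      conv_lhs => rw [h1]
      rw [card_union_of_disjoint h2, card_union_of_disjoint h3]
    omega
  by_cases hi0 : i = 0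
  · -- adjacent to the root
    refine ⟨A, ⟨?_, ?_⟩, Or.inl rfl⟩
    · rintro rfl
      rw [inter_self, hcA] at hi
      omega
    · rw [Finset.disjoint_iff_inter_eq_empty]
      exact card_eq_zero.1 hi0
  have hk : (u.1 ∩ R).card ≤ m - 2 * t := by
    rw [← hRcard]; exact card_le_card inter_subset_right
  obtain ⟨h1, h2, h3, h4, h5⟩ := hpar i (by omega) (by omega) j (by omega) (by omega) (by omega) hu
  set a := (P i j).1 with ha
  set b := (P i j).2 with hb
  have hAu : (A.1 \ u.1).card = t - i := by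
    have := card_sdiff_add_card_inter A.1 u.1
    rw [inter_comm] at this
    omega
  have hvu : (v \ u.1).card = t - j := by
    have := card_sdiff_add_card_inter v u.1
    rw [inter_comm] at this
    omega
  have hRu : (R \ u.1).card = m - 2 * t - (u.1 ∩ R).card := by
    have := card_sdiff_add_card_inter R u.1
    rw [inter_comm] at this
    omega
  obtain ⟨X, hX1, hX2⟩ := exists_subset_card_eq (s := A.1 \ u.1) (n := a) (by omega)
  obtain ⟨Y, hY1, hY2⟩ := exists_subset_card_eq (s := v \ u.1) (n := b) (by omega)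
  obtain ⟨Z, hZ1, hZ2⟩ := exists_subset_card_eq (s := R \ u.1) (n := t - a - b) (by omega)
  have hXA : ∀ x ∈ X, x ∈ A.1 ∧ x ∉ u.1 := fun x hx => mem_sdiff.1 (hX1 hx)
  have hYv : ∀ x ∈ Y, x ∈ v ∧ x ∉ u.1 := fun x hx => mem_sdiff.1 (hY1 hx)
  have hZR : ∀ x ∈ Z, x ∈ R ∧ x ∉ u.1 := fun x hx => mem_sdiff.1 (hZ1 hx)
  have hRA : ∀ x ∈ R, x ∉ A.1 ∧ x ∉ v := by
    intro x hx
    simp only [hR, mem_compl, mem_union] at hx
    tauto
  have hAv : ∀ x ∈ A.1, x ∉ v := fun x hx => Finset.disjoint_left.1 hdAv hx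
  have hd1 : Disjoint X Y := by
    rw [Finset.disjoint_left]
    intro x hx hy
    exact hAv x (hXA x hx).1 (hYv x hy).1
  have hd2 : Disjoint (X ∪ Y) Z := by
    rw [Finset.disjoint_left]
    intro x hx hz
    rcases mem_union.1 hx with hx | hx
    · exact (hRA x (hZR x hz).1).1 (hXA x hx).1
    · exact (hRA x (hZR x hz).1).2 (hYv x hx).1
  have hqcard : ((X ∪ Y) ∪ Z).card = t := by
    rw [card_union_of_disjoint hd2, card_union_of_disjoint hd1]
    omega
  have hqA : ((X ∪ Y) ∪ Z) ∩ A.1 = X := by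
    ext x
    simp only [mem_inter, mem_union]
    constructor
    · rintro ⟨(hx | hx) | hx, hxA⟩
      · exact hx
      · exact absurd (hYv x hx).1 (hAv x hxA)
      · exact absurd hxA (hRA x (hZR x hx).1).1
    · intro hx; exact ⟨Or.inl (Or.inl hx), (hXA x hx).1⟩
  have hqv : ((X ∪ Y) ∪ Z) ∩ v = Y := by
    ext x
    simp only [mem_inter, mem_union]
    constructor
    · rintro ⟨(hx | hx) | hx, hxv⟩
      · exact absurd hxv (hAv x (hXA x hx).1)
      · exact hx
      · exact absurd hxv (hRA x (hZR x hx).1).2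
    · intro hx; exact ⟨Or.inl (Or.inr hx), (hYv x hx).1⟩
  have hdq : Disjoint u.1 ((X ∪ Y) ∪ Z) := by
    rw [Finset.disjoint_right]
    intro x hx
    rcases mem_union.1 hx with hx | hx
    · rcases mem_union.1 hx with hx | hx
      · exact (hXA x hx).2
      · exact (hYv x hx).2
    · exact (hZR x hx).2
  refine ⟨⟨(X ∪ Y) ∪ Z, hqcard⟩, ⟨?_, hdq⟩, Or.inr ?_⟩
  · intro heq
    rw [heq] at hdq
    simp only [disjoint_self, bot_eq_empty] at hdq
    rw [hdq, card_empty] at hqcard
    omega
  · show 2 * W i j ≤ W (((X ∪ Y) ∪ Z) ∩ A.1).card (((X ∪ Y) ∪ Z) ∩ v).card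
    rw [hqA, hqv, hX2, hY2]
    exact h1

theorem reaches_of_cert {m t : ℕ} {W : ℕ → ℕ → ℕ} {P : ℕ → ℕ → ℕ × ℕ} {M : ℕ}
    (h : Cert m t W P M) (A : {s : Finset (Fin m) // s.card = t})
    (C : {s : Finset (Fin m) // s.card = t} → ℕ)
    (hC : Fintype.card {s : Finset (Fin m) // s.card = t} ≤ ∑ v, C v) :
    Reaches (kneser m t) C A := by
  have h' := h
  obtain ⟨ht, hm, hM, hroot, -, hsum⟩ := h'
  refine reach_of_family (kneser m t) A (powersetCard t (A.1)ᶜ)
    (fun v u => W (u.1 ∩ A.1).card (u.1 ∩ v).card) (fun v hv => strategy_of_cert h A v hv) ?_ M hM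
    ?_ C hC
  · intro v hv
    obtain ⟨hv1, -⟩ := mem_powersetCard.1 hv
    have : A.1 ∩ v = ∅ := by
      rw [← Finset.disjoint_iff_inter_eq_empty, Finset.disjoint_left]
      intro a ha hb
      exact (mem_compl.1 (hv1 hb)) ha
    show W (A.1 ∩ A.1).card (A.1 ∩ v).card = 0
    rw [this, inter_self, A.2, card_empty, hroot]
  · intro u hu
    have hi : (u.1 ∩ A.1).card < t := by
      refine lt_of_lt_of_eq ?_ u.2
      apply card_lt_card
      refine ⟨inter_subset_left, fun hsub => hu ?_⟩
      apply Subtype.ext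
      apply eq_of_subset_of_card_le (hsub.trans inter_subset_right)
      rw [u.2, A.2]
    set i := (u.1 ∩ A.1).card with hidef
    have hmaps : ∀ v ∈ powersetCard t (A.1)ᶜ, (u.1 ∩ v).card ∈ range (t + 1) := by
      intro v _
      rw [mem_range, Nat.lt_succ_iff]
      exact (card_le_card inter_subset_left).trans u.2.le
    rw [← Finset.sum_fiberwise_of_maps_to hmaps]
    rw [← hsum i hi]
    apply Finset.sum_congr rfl
    intro j hj
    have hj' : j ≤ t := Nat.lt_succ_iff.1 (mem_range.1 hj)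
    have h1 : ∑ v ∈ (powersetCard t (A.1)ᶜ).filter (fun v => (u.1 ∩ v).card = j),
        W i (u.1 ∩ v).card =
        ∑ v ∈ (powersetCard t (A.1)ᶜ).filter (fun v => (u.1 ∩ v).card = j), W i j := by
      apply Finset.sum_congr rfl
      intro v hv
      rw [(mem_filter.1 hv).2]
    rw [h1, Finset.sum_const, smul_eq_mul]
    congr 1
    have h2 : (powersetCard t (A.1)ᶜ).filter (fun v => (u.1 ∩ v).card = j) =
        (powersetCard t (A.1)ᶜ).filter (fun v => ((u.1 \ A.1) ∩ v).card = j) := by
      apply Finset.filter_congr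
      intro v hv
      obtain ⟨hv1, -⟩ := mem_powersetCard.1 hv
      have : u.1 ∩ v = (u.1 \ A.1) ∩ v := by
        ext x
        simp only [mem_inter, mem_sdiff]
        constructor
        · rintro ⟨h3, h4⟩; exact ⟨⟨h3, mem_compl.1 (hv1 h4)⟩, h4⟩
        · rintro ⟨⟨h3, -⟩, h4⟩; exact ⟨h3, h4⟩
      rw [this]
    rw [h2, count _ _ (fun x hx => mem_compl.2 (mem_sdiff.1 hx).2) _ _ hj']
    have h3 : (u.1 \ A.1).card = t - i := by
      have := card_sdiff_add_card_inter u.1 A.1
      have := u.2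
      omega
    have h4 : ((A.1)ᶜ \ (u.1 \ A.1)).card = m - 2 * t + i := by
      rw [card_sdiff_of_subset (fun x hx => mem_compl.2 (mem_sdiff.1 hx).2), h3, card_compl,
        Fintype.card_fin, A.2]
      omega
    rw [h3, h4]

end Pool.Agent.Q220.Kneser
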