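import Pool.Agent.Q220.Kneser.Basic

set_option autoImplicit false

/-!
# Certificates (found by linear programming)

`W i j` is the weight of the vertices that meet the root in `i` elements and the chosen neighbour of
the root in `j` elements; `P i j` is the type of the parent.
-/

namespace Pool.Agent.Q220.Kneser

/-- weights for `K(12, 5)` -/
def W12_5 : List (List ℕ) := [[0, 0, 0, 0, 72, 360], [0, 0, 0, 90, 0, 0], [0, 40, 40, 80, 0, 0], [180, 45, 45, 0, 0, 0], [180, 0, 0, 0, 0, 0], [0, 0, 0, 0, 0, 0]]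

/-- parents for `K(12, 5)` -/
def P12_5 : List (List (ℕ × ℕ)) := [[(0, 0), (0, 0), (0, 0), (0, 0), (0, 0), (0, 0)], [(0, 0), (0, 0), (0, 0), (4, 0), (0, 0), (0, 0)], [(0, 0), (2, 3), (2, 3), (3, 0), (0, 0), (0, 0)], [(0, 5), (1, 3), (1, 3), (0, 0), (0, 0), (0, 0)], [(0, 5), (0, 0), (0, 0), (0, 0), (0, 0), (0, 0)], [(0, 0), (0, 0), (0, 0), (0, 0), (0, 0), (0, 0)]]

theorem cert12_5 : Cert 12 5 (fun i j => (W12_5.getD i []).getD j 0)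
    (fun i j => (P12_5.getD i []).getD j (0, 0)) 1080 :=
  cert_of_certB (by decide +kernel)

/-- weights for `K(13, 5)` -/
def W13_5 : List (List ℕ) := [[0, 0, 420, 644, 840, 3360], [0, 420, 595, 840, 840, 0], [1680, 420, 770, 840, 0, 0], [1680, 420, 840, 0, 0, 0], [1680, 120, 0, 0, 0, 0], [0, 0, 0, 0, 0, 0]]

/-- parents for `K(13, 5)` -/
def P13_5 : List (List (ℕ × ℕ)) := [[(0, 0), (0, 0), (0, 0), (0, 0), (0, 0), (0, 0)], [(0, 0), (2, 3), (4, 0), (3, 0), (2, 0), (0, 0)], [(0, 5), (1, 4), (3, 0), (2, 0), (0, 0), (0, 0)], [(0, 5), (1, 4), (2, 0), (0, 0), (0, 0), (0, 0)], [(0, 5), (0, 3), (0, 0), (0, 0), (0, 0), (0, 0)], [(0, 0), (0, 0), (0, 0), (0, 0), (0, 0), (0, 0)]]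

theorem cert13_5 : Cert 13 5 (fun i j => (W13_5.getD i []).getD j 0)
    (fun i j => (P13_5.getD i []).getD j (0, 0)) 39480 :=
  cert_of_certB (by decide +kernel)

/-- weights for `K(14, 5)` -/
def W14_5 : List (List ℕ) := [[0, 48, 540, 540, 540, 2160], [1080, 540, 517, 540, 540, 0], [1080, 540, 472, 540, 0, 0], [1080, 366, 540, 0, 0, 0], [1080, 96, 0, 0, 0, 0], [0, 0, 0, 0, 0, 0]]

/-- parents for `K(14, 5)` -/
def P14_5 : List (List (ℕ × ℕ)) := [[(0, 0), (0, 0), (0, 0), (0, 0), (0, 0), (0, 0)], [(0, 5), (4, 0), (4, 0), (3, 0), (3, 0), (0, 0)], [(0, 5), (3, 0), (3, 0), (1, 0), (0, 0), (0, 0)], [(0, 5), (2, 0), (1, 0), (0, 0), (0, 0), (0, 0)], [(0, 5), (1, 0), (0, 0), (0, 0), (0, 0), (0, 0)], [(0, 0), (0, 0), (0, 0), (0, 0), (0, 0), (0, 0)]]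

theorem cert14_5 : Cert 14 5 (fun i j => (W14_5.getD i []).getD j 0)
    (fun i j => (P14_5.getD i []).getD j (0, 0)) 67200 :=
  cert_of_certB (by decide +kernel)

/-- weights for `K(15, 5)` -/
def W15_5 : List (List ℕ) := [[2520, 1260, 1260, 1260, 1260, 5040], [2520, 1260, 1239, 1260, 1260, 0], [2520, 1056, 1260, 1260, 0, 0], [2520, 792, 1260, 0, 0, 0], [2520, 40, 0, 0, 0, 0], [0, 0, 0, 0, 0, 0]]

/-- parents for `K(15, 5)` -/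
def P15_5 : List (List (ℕ × ℕ)) := [[(0, 0), (0, 0), (0, 0), (0, 0), (0, 0), (0, 0)], [(0, 5), (4, 0), (4, 0), (4, 0), (1, 0), (0, 0)], [(0, 5), (3, 0), (1, 0), (3, 0), (0, 0), (0, 0)], [(0, 5), (1, 0), (2, 0), (0, 0), (0, 0), (0, 0)], [(0, 5), (1, 0), (0, 0), (0, 0), (0, 0), (0, 0)], [(0, 0), (0, 0), (0, 0), (0, 0), (0, 0), (0, 0)]]

theorem cert15_5 : Cert 15 5 (fun i j => (W15_5.getD i []).getD j 0)
    (fun i j => (P15_5.getD i []).getD j (0, 0)) 322560 :=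
  cert_of_certB (by decide +kernel)

/-- weights for `K(16, 5)` -/
def W16_5 : List (List ℕ) := [[120, 60, 60, 15, 15, 240], [120, 15, 48, 60, 60, 0], [120, 8, 60, 60, 0, 0], [120, 0, 60, 0, 0, 0], [30, 60, 0, 0, 0, 0], [0, 0, 0, 0, 0, 0]]

/-- parents for `K(16, 5)` -/
def P16_5 : List (List (ℕ × ℕ)) := [[(0, 0), (0, 0), (0, 0), (0, 0), (0, 0), (0, 0)], [(0, 5), (4, 0), (1, 0), (3, 0), (2, 0), (0, 0)], [(0, 5), (1, 0), (3, 0), (3, 0), (0, 0), (0, 0)], [(0, 5), (0, 0), (0, 0), (0, 0), (0, 0), (0, 0)], [(0, 5), (0, 0), (0, 0), (0, 0), (0, 0), (0, 0)], [(0, 0), (0, 0), (0, 0), (0, 0), (0, 0), (0, 0)]]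

theorem cert16_5 : Cert 16 5 (fun i j => (W16_5.getD i []).getD j 0)
    (fun i j => (P16_5.getD i []).getD j (0, 0)) 20160 :=
  cert_of_certB (by decide +kernel)

/-- weights for `K(15, 6)` -/
def W15_6 : List (List ℕ) := [[0, 0, 0, 180, 152, 180, 1440], [0, 0, 180, 45, 360, 180, 0], [0, 180, 0, 270, 360, 0, 0], [720, 90, 124, 360, 0, 0, 0], [720, 90, 180, 0, 0, 0, 0], [360, 90, 0, 0, 0, 0, 0], [0, 0, 0, 0, 0, 0, 0]]

/-- parents for `K(15, 6)` -/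
def P15_6 : List (List (ℕ × ℕ)) := [[(0, 0), (0, 0), (0, 0), (0, 0), (0, 0), (0, 0), (0, 0)], [(0, 0), (0, 0), (2, 4), (5, 0), (4, 0), (5, 0), (0, 0)], [(0, 0), (3, 3), (0, 0), (4, 0), (4, 0), (0, 0), (0, 0)], [(0, 6), (1, 5), (2, 3), (3, 0), (0, 0), (0, 0), (0, 0)], [(0, 6), (1, 5), (2, 4), (0, 0), (0, 0), (0, 0), (0, 0)], [(0, 6), (0, 5), (0, 0), (0, 0), (0, 0), (0, 0), (0, 0)], [(0, 0), (0, 0), (0, 0), (0, 0), (0, 0), (0, 0), (0, 0)]]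

theorem cert15_6 : Cert 15 6 (fun i j => (W15_6.getD i []).getD j 0)
    (fun i j => (P15_6.getD i []).getD j (0, 0)) 15120 :=
  cert_of_certB (by decide +kernel)

/-- weights for `K(16, 6)` -/
def W16_6 : List (List ℕ) := [[0, 0, 900, 1800, 1330, 1800, 7200], [0, 900, 1800, 1341, 1800, 1800, 0], [3600, 900, 1460, 1800, 1800, 0, 0], [3600, 900, 1740, 1800, 0, 0, 0], [3600, 900, 1800, 0, 0, 0, 0], [3600, 200, 0, 0, 0, 0, 0], [0, 0, 0, 0, 0, 0, 0]]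

/-- parents for `K(16, 6)` -/
def P16_6 : List (List (ℕ × ℕ)) := [[(0, 0), (0, 0), (0, 0), (0, 0), (0, 0), (0, 0), (0, 0)], [(0, 0), (4, 2), (5, 0), (4, 0), (3, 0), (2, 0), (0, 0)], [(0, 6), (3, 3), (4, 0), (3, 0), (2, 0), (0, 0), (0, 0)], [(0, 6), (1, 5), (3, 0), (2, 0), (0, 0), (0, 0), (0, 0)], [(0, 6), (1, 2), (2, 0), (0, 0), (0, 0), (0, 0), (0, 0)], [(0, 6), (1, 5), (0, 0), (0, 0), (0, 0), (0, 0), (0, 0)], [(0, 0), (0, 0), (0, 0), (0, 0), (0, 0), (0, 0), (0, 0)]]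

theorem cert16_6 : Cert 16 6 (fun i j => (W16_6.getD i []).getD j 0)
    (fun i j => (P16_6.getD i []).getD j (0, 0)) 327600 :=
  cert_of_certB (by decide +kernel)

/-- weights for `K(17, 6)` -/
def W17_6 : List (List ℕ) := [[0, 300, 600, 600, 600, 600, 2400], [1200, 600, 600, 597, 600, 600, 0], [1200, 600, 580, 600, 600, 0, 0], [1200, 600, 520, 600, 0, 0, 0], [1200, 400, 600, 0, 0, 0, 0], [1200, 100, 0, 0, 0, 0, 0], [0, 0, 0, 0, 0, 0, 0]]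

/-- parents for `K(17, 6)` -/
def P17_6 : List (List (ℕ × ℕ)) := [[(0, 0), (0, 0), (0, 0), (0, 0), (0, 0), (0, 0), (0, 0)], [(0, 6), (5, 0), (5, 0), (4, 0), (3, 0), (5, 0), (0, 0)], [(0, 6), (4, 0), (3, 0), (2, 0), (3, 0), (0, 0), (0, 0)], [(0, 6), (3, 0), (2, 0), (3, 0), (0, 0), (0, 0), (0, 0)], [(0, 6), (2, 0), (2, 0), (0, 0), (0, 0), (0, 0), (0, 0)], [(0, 6), (1, 0), (0, 0), (0, 0), (0, 0), (0, 0), (0, 0)], [(0, 0), (0, 0), (0, 0), (0, 0), (0, 0), (0, 0), (0, 0)]]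

theorem cert17_6 : Cert 17 6 (fun i j => (W17_6.getD i []).getD j 0)
    (fun i j => (P17_6.getD i []).getD j (0, 0)) 277200 :=
  cert_of_certB (by decide +kernel)

/-- weights for `K(17, 7)` -/
def W17_7 : List (List ℕ) := [[0, 0, 0, 0, 0, 160, 840, 32760], [0, 0, 0, 0, 840, 280, 0, 0], [0, 0, 0, 0, 0, 6048, 0, 0], [0, 441, 441, 420, 882, 0, 0, 0], [16380, 140, 420, 420, 0, 0, 0, 0], [7560, 0, 0, 0, 0, 0, 0, 0], [1680, 0, 0, 0, 0, 0, 0, 0], [0, 0, 0, 0, 0, 0, 0, 0]]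

/-- parents for `K(17, 7)` -/
def P17_7 : List (List (ℕ × ℕ)) := [[(0, 0), (0, 0), (0, 0), (0, 0), (0, 0), (0, 0), (0, 0), (0, 0)], [(0, 0), (0, 0), (0, 0), (0, 0), (6, 0), (5, 0), (0, 0), (0, 0)], [(0, 0), (0, 0), (0, 0), (0, 0), (0, 0), (4, 0), (0, 0), (0, 0)], [(0, 0), (3, 4), (3, 4), (1, 4), (4, 0), (0, 0), (0, 0), (0, 0)], [(0, 7), (1, 5), (1, 4), (1, 4), (0, 0), (0, 0), (0, 0), (0, 0)], [(0, 7), (0, 0), (0, 0), (0, 0), (0, 0), (0, 0), (0, 0), (0, 0)], [(0, 7), (0, 0), (0, 0), (0, 0), (0, 0), (0, 0), (0, 0), (0, 0)], [(0, 0), (0, 0), (0, 0), (0, 0), (0, 0), (0, 0), (0, 0), (0, 0)]]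

theorem cert17_7 : Cert 17 7 (fun i j => (W17_7.getD i []).getD j 0)
    (fun i j => (P17_7.getD i []).getD j (0, 0)) 60480 :=
  cert_of_certB (by decide +kernel)

/-- weights for `K(18, 7)` -/
def W18_7 : List (List ℕ) := [[0, 0, 0, 13020, 7209, 20160, 26040, 104160], [0, 0, 13020, 20160, 8778, 20160, 20160, 0], [0, 10080, 13020, 6748, 26040, 26040, 0, 0], [52080, 13020, 10080, 16002, 26040, 0, 0, 0], [52080, 13020, 8960, 26040, 0, 0, 0, 0], [52080, 10080, 10080, 0, 0, 0, 0, 0], [40320, 0, 0, 0, 0, 0, 0, 0], [0, 0, 0, 0, 0, 0, 0, 0]]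

/-- parents for `K(18, 7)` -/
def P18_7 : List (List (ℕ × ℕ)) := [[(0, 0), (0, 0), (0, 0), (0, 0), (0, 0), (0, 0), (0, 0), (0, 0)], [(0, 0), (0, 0), (2, 5), (6, 0), (6, 0), (6, 0), (6, 0), (0, 0)], [(0, 0), (1, 6), (2, 5), (5, 0), (5, 0), (3, 0), (0, 0), (0, 0)], [(0, 7), (3, 4), (1, 5), (4, 0), (3, 0), (0, 0), (0, 0), (0, 0)], [(0, 7), (0, 6), (1, 3), (3, 0), (0, 0), (0, 0), (0, 0), (0, 0)], [(0, 7), (0, 5), (1, 5), (0, 0), (0, 0), (0, 0), (0, 0), (0, 0)], [(0, 7), (0, 0), (0, 0), (0, 0), (0, 0), (0, 0), (0, 0), (0, 0)], [(0, 0), (0, 0), (0, 0), (0, 0), (0, 0), (0, 0), (0, 0), (0, 0)]]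

theorem cert18_7 : Cert 18 7 (fun i j => (W18_7.getD i []).getD j 0)
    (fun i j => (P18_7.getD i []).getD j (0, 0)) 4838400 :=
  cert_of_certB (by decide +kernel)

/-- weights for `K(20, 8)` -/
def W20_8 : List (List ℕ) := [[0, 0, 0, 0, 4620, 0, 1045, 9240, 36960], [0, 0, 0, 4620, 2520, 30, 2520, 9240, 0], [0, 0, 0, 0, 0, 6440, 3920, 0, 0], [0, 4620, 4620, 0, 924, 9240, 0, 0, 0], [18480, 1260, 462, 216, 9240, 0, 0, 0, 0], [18480, 3220, 1260, 0, 0, 0, 0, 0, 0], [18480, 0, 0, 0, 0, 0, 0, 0, 0], [5040, 0, 0, 0, 0, 0, 0, 0, 0], [0, 0, 0, 0, 0, 0, 0, 0, 0]]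

/-- parents for `K(20, 8)` -/
def P20_8 : List (List (ℕ × ℕ)) := [[(0, 0), (0, 0), (0, 0), (0, 0), (0, 0), (0, 0), (0, 0), (0, 0), (0, 0)], [(0, 0), (0, 0), (0, 0), (3, 5), (7, 0), (7, 0), (7, 0), (6, 0), (0, 0)], [(0, 0), (0, 0), (0, 0), (0, 0), (0, 0), (6, 0), (4, 0), (0, 0), (0, 0)], [(0, 0), (4, 4), (3, 5), (0, 0), (5, 0), (4, 0), (0, 0), (0, 0), (0, 0)], [(0, 8), (1, 6), (3, 4), (3, 4), (4, 0), (0, 0), (0, 0), (0, 0), (0, 0)], [(0, 8), (2, 5), (1, 6), (0, 0), (0, 0), (0, 0), (0, 0), (0, 0), (0, 0)], [(0, 8), (0, 0), (0, 0), (0, 0), (0, 0), (0, 0), (0, 0), (0, 0), (0, 0)], [(0, 8), (0, 0), (0, 0), (0, 0), (0, 0), (0, 0), (0, 0), (0, 0), (0, 0)], [(0, 0), (0, 0), (0, 0), (0, 0), (0, 0), (0, 0), (0, 0), (0, 0), (0, 0)]]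

theorem cert20_8 : Cert 20 8 (fun i j => (W20_8.getD i []).getD j 0)
    (fun i j => (P20_8.getD i []).getD j (0, 0)) 831600 :=
  cert_of_certB (by decide +kernel)

end Pool.Agent.Q220.Kneser
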